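import Pool.Agent.N110.RL.Log
import Pool.Agent.N110.RK.Stat
import Pool.Agent.N110.NV.Fin
import Pool.Agent.R887.NefP

/-!
Log canonical pairs `(X, D)` with nef `K_X + D` and an abelian group of birational self-maps which
preserve the open part `V = X \ D`: a bound for the numerical dimension by the growth rank, and
nonvanishing if the growth rank is maximal.
-/

set_option autoImplicit false

open FF Pool.Agent.W602.GT Pool.Agent.Y172 Pool.Agent.R887 Pool.Agent.N110

/-- Let `X` be a normal projective variety of dimension `n ≥ 1` with generic point `y`, and `D` a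
reduced divisor on `X` such that `(X, D)` is log canonical, the open part `V = X \ D` has canonical
singularities (it is smooth, for instance) and `K_X + D` is nef. Let `ℤ ^ r` act by birational
self-maps `f_v` of `X`, given by the automorphisms `φ v = f_v^*` of the function field, which map no
prime divisor of `V` into the boundary `D` (automorphisms of `V`, for instance), and let `s ≥ 1` be
at most the growth rank of the action: the degrees `f_v^* H · H ^ (n - 1)` grow subexponentially only
along subspaces of `ℝ ^ r` of codimension at least `s`; for instance `s = r ≥ 1` if the degrees are at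
least `c exp (δ |v|)` for some `c, δ > 0`. Then `s ≤ n - 1` and the numerical dimension of `K_X + D`
is at most `n - 1 - s`. If `s = n - 1` and the irregularity of `X` is zero then `m (K_X + D)` is
trivial for some `m ≥ 1`: it has a section `ω ≠ 0` without zeros. In particular `K_X + D` is
`ℚ`-effective and semiample. -/
theorem Pool.Agent.Results.MP_bc213e_ag.LogAbelianRank.result
    {K : Type} [Field K] [Algebra ℂ K] {N n : ℕ} {y : Fin (N + 1) → K} (hy : NormalModel y)
    (hn : Algebra.trdeg ℂ K = n) (hn0 : 0 < n) {D : Place ℂ K → ℚ} (hD : Effective y D)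
    (hred : ∀ P, IsPrimeDivisor y P → D P = 0 ∨ D P = 1) (hlc : LogCanonical y n D)
    (hcan : CanonicalOff y n D) (hnef : LogNef y n D)
    {r s : ℕ} (hs : 0 < s) {φ : (Fin r → ℤ) → (K ≃ₐ[ℂ] K)} (hφ : ∀ u v, φ (u + v) = φ u * φ v)
    (hV : ∀ v, PreservesOpen (φ v : K →ₐ[ℂ] K) y D)
    (hrank : GrowthRankGe φ y n s ∨ (s = r ∧ ExpGrowth φ y n)) :
    s < n ∧ NumDimLt y n D (n - s) ∧
      (s + 1 = n → IrregularityZero y → ∃ m : ℕ, 1 ≤ m ∧
        ∃ ω : (Fin n → Derivation ℂ K K) → K, IsSection y n m (m • D) ω ∧ ω ≠ 0 ∧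
          ∀ P, IsPrimeDivisor y P → OrdEq P ω (-(m * D P))) := by
  have hrank' : GrowthRankGe φ y n s := by
    rcases hrank with h | ⟨rfl, h⟩
    · exact h
    · exact RK.growthRank_of_exp h
  obtain ⟨h1, h2⟩ := RK.rank_main hy hn hn0 hD.2 hs hφ
    (fun v => pullLe_log hy hn hred hlc hcan (hV v)) hrank'
  refine ⟨h1, h2, fun h3 hq => ?_⟩
  rw [show n - s = 1 by omega] at h2
  obtain ⟨m, hm, ω, hω0, hω⟩ := NV.nonvanishing hy hn hn0 hD.2
    (NV.psef_of_nef hy hn hn0 hnef) h2 hq
  exact ⟨m, hm, ω, hω, hω0, fun P hP => nef_trivialP hy hn hn0 h2 hnef hm hω hω0 P hP⟩
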