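import Pool.Agent.N110.NV.Fin
import Pool.Agent.N110.QPlateau
import Pool.Agent.N110.Log
import Pool.Agent.R887.NefP

/-!
Log canonical pairs `(X, D)` with nef `K_X + D` and dominant self-maps of the open part
`V = X \ D`: nonvanishing if the greatest dynamical degree is not attained at two consecutive
indices.
-/

set_option autoImplicit false

open FF Pool.Agent.W602.GT Pool.Agent.Y172 Pool.Agent.R887 Pool.Agent.N110

/-- Let `X` be a normal projective variety of dimension `n ≥ 1`, of irregularity zero, with generic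
point `y`, and `D` a reduced divisor on `X` such that `(X, D)` is log canonical, the open part
`V = X \ D` has canonical singularities (it is smooth, for instance) and `K_X + D` is nef. Let `S`
be a set of dominant rational self-maps of `X`, invertible or not, of bounded degrees, which map no
prime divisor of `V` into the boundary `D` (dominant morphisms from `V` to `V`, for instance), and
suppose that the greatest of the joint dynamical degrees `λ 0, ..., λ n` of `S` (the dynamical
degrees of `f`, if `S = {f}`) is not attained at two consecutive indices. Then `m (K_X + D)` is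
trivial for some `m ≥ 1`: it has a section `ω ≠ 0` without zeros. In particular `K_X + D` is
`ℚ`-effective and semiample. -/
theorem Pool.Agent.Results.MP_bc213e_ag.LogSelfMaps.result
    {K : Type} [Field K] [Algebra ℂ K] {N n : ℕ} {y : Fin (N + 1) → K} (hy : NormalModel y)
    (hn : Algebra.trdeg ℂ K = n) (hn0 : 0 < n) {D : Place ℂ K → ℚ} (hD : Effective y D)
    (hred : ∀ P, IsPrimeDivisor y P → D P = 0 ∨ D P = 1) (hlc : LogCanonical y n D)
    (hcan : CanonicalOff y n D) (hnef : LogNef y n D) (hq : IrregularityZero y)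
    {S : Set (K →ₐ[ℂ] K)} (hS : ∀ φ ∈ S, PreservesOpen φ y D) {C : ℕ}
    (hC : ∀ φ ∈ S, selfDegree φ y n 1 ≤ C)
    (hdeg : ∀ j, j + 1 ≤ n → ∃ a ≤ 1, ∃ p ≤ n,
      selfJointDegree S y n (j + a) < selfJointDegree S y n p) :
    ∃ m : ℕ, 1 ≤ m ∧ ∃ ω : (Fin n → Derivation ℂ K K) → K, IsSection y n m (m • D) ω ∧ ω ≠ 0 ∧
      ∀ P, IsPrimeDivisor y P → OrdEq P ω (-(m * D P)) := by
  have key : NumDimLt y n D 1 := by
    by_contra hnum
    obtain ⟨j, hj, h4⟩ := splateau hy hn hD.2 hnef
      (fun φ hφ => selfPullLe_log hy hn hred hlc hcan (hS φ hφ)) hC (by omega : 1 ≤ n) hnum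
    obtain ⟨a, ha, p, hp, hlt⟩ := hdeg j hj
    exact absurd hlt (not_lt.2 (h4 a ha p hp))
  obtain ⟨m, hm, ω, hω0, hω⟩ := NV.nonvanishing hy hn hn0 hD.2
    (NV.psef_of_nef hy hn hn0 hnef) key hq
  exact ⟨m, hm, ω, hω, hω0, fun P hP => nef_trivialP hy hn hn0 key hnef hm hω hω0 P hP⟩
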