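import Pool.Agent.N145.SX.MFin

/-!
# Nonvanishing for log pairs dominated by the product of several open varieties and an open curve

Let `X° i`, `i < k`, be smooth varieties over `ℂ` of dimension `m i`, and `U = C ∖ B` a smooth curve,
open or projective and of any genus (`B` is finite and may be empty). Let
`V° = X° 0 × ... × X° (k - 1) × U ⇢ W°` be a dominant rational map of finite degree to a variety `W°`
which is proper in the sense that a prime divisor over `V°` (on any compactification of any
birational model) has a centre on `V°` if and only if its image has a centre on `W°`; for example any
finite morphism onto a normal variety `W°`. The map need not be related to the product structure, and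
it need not be the quotient by a group. Let `W_i` be the image of `V` in `W × X 0 × ... × X (i - 1)`,
and let `d i` be the degree over `W_i` of the image of `V` in `W_i × X i`; for example `W_0 = W`, and
`d 0` is the number of different points of `X 0` below a general fibre of `V° ⇢ W°`. The product of
the `d i` is at most the degree of `V° ⇢ W°`.

Suppose that for all `i` the logarithmic canonical forms of `X° i` separate `2 d i` general points: any
`2 d i` different points in a nonempty open subset of `X° i` impose independent conditions on
`H⁰(K + D)` of a smooth compactification with the boundary `D`. For example: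

* `X° i` is the complement of a divisor with normal crossings of degree `e` in a smooth hypersurface of
  degree `c` in projective space, `c + e ≥ m i + 1 + 2 d i` (also `c = 1` or `e = 0`);
* `X° i` is a curve of logarithmic gonality greater than `2 d i`.

The theorem: the log canonical divisor of a smooth compactification of a resolution of `W°` is
pseudo-effective if and only if its Kodaira dimension is at least `dim W° - 1`, and if and only if
`W°` is not `A¹`-uniruled.

The number `2 d` is optimal already if `k = 1`, `m 0 = 1` and there is no boundary: let `X → E` be a
general covering of degree `d` and of large genus of an elliptic curve. Its gonality is `2 d`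
(Castelnuovo-Severi), so its canonical forms separate `2 d - 1` points, and `W = E × C` for an elliptic
curve `C` has `κ(W) = 0`.

There is no condition on the irregularity (the theorem of the team for products of open curves,
`OpenCurveProducts`, is about varieties with many logarithmic one-forms). Let `(Y, D)` be a log
canonical pair with `D` reduced such that `Y ∖ D` has canonical singularities (for example, is smooth)
and is such a `W°`, or properly birational to it. If `K_Y + D` is nef then the first condition holds:
on a log resolution `K_Z + D_Z` is the pullback of `K_Y + D` plus an effective divisor. The forms on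
`Z` give sections of multiples of `K_Y + D`, so `κ(Y, K_Y + D) ≥ dim Y - 1`.

Proof. Let `f i` be logarithmic canonical forms of the `X° i` and `φ` a differential on `C` with at
most simple poles on `B`. The product of their pullbacks is a logarithmic canonical form of `V°`: for
vector fields which are logarithmic (or regular) along a prime divisor `Q` over `V` the determinant of
the coordinates is expanded in blocks by Gauss elimination with a minor of minimal order along `Q`.
The trace of the product on `W°` is a logarithmic canonical form. If some trace does not vanish, let
`N ⊆ ℂ(W)` be the field generated by the ratios of the traces. Take a generic point `P` of `W` and a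
second point `Q`, the image of `P` under a generic embedding over `N`. The traces at `P` and `Q` are
proportional. This is a relation between the points of `V` below `P` and `Q` which is multilinear in
the values of the `f i`. At most `2 d i` points of `X i` occur if the first `i` coordinates are fixed,
and they are separated, so we can fix the coordinates one after the other. We come to the points with
the same coordinates `x` in all `X i` as a given point over `P`. If there are such points over `Q` for
generic `x`, then the coordinates in the `X i` are algebraic over `N`, and the Kodaira dimension is at
least `dim W - 1`. Otherwise all `φ` have trace zero on the image `R_x` of `{x} × U` in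
`W × X 0 × ... × X (k - 1)`. By base change all logarithmic differentials of the geometric generic
fibre have trace zero. So `R_x` is rational, and has at most one point below the boundary: otherwise
the pullback of a differential of the third kind with poles at two of these points would be a
logarithmic differential with nonzero trace. Hence `W°` is covered by images of the affine line.

The parts of the Lean proof on pull-backs, products and the geometric generic fibre are due to
helpers 123, 221, 442, 160, 279, 603, 342, 75 and 78.
-/

set_option autoImplicit false
set_option linter.overlappingInstances false
set_option maxHeartbeats 4000000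
set_option synthInstance.maxHeartbeats 400000

open FF Module Pool.Agent Pool.Agent.W602.GT
open Pool.Agent.W619.PL (IsA1Uniruled)

namespace Pool.Agent.Results.MP_bc213e_ag.OpenProductsOfVarieties

/-- **The logarithmic canonical forms separate `r` general points.** `E` is the function field of a
variety `X°` of dimension `m`, `BX` is the set of places of `E` without centre on `X°`, and `D` is a
rational frame of the tangent bundle. The embeddings `σ : E → Ω` are the generic points of `X` with
coordinates in the field `Ω`. At most `r` different such points impose independent conditions on the
logarithmic canonical forms `ω` (`LogSec` with exponent one): if `∑ c σ * σ (ω D) = 0` for all `ω`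
then all the coefficients `c σ` are zero. -/
def SeparatesPoints (E : Type) [Field E] [Algebra ℂ E] (m : ℕ) (BX : Place ℂ E → Prop) (r : ℕ) :
    Prop :=
  ∀ D : Fin m → Derivation ℂ E E, LinearIndependent E D →
    ∀ (Ω : Type) [Field Ω] [Algebra ℂ Ω] [IsAlgClosed Ω] (A : Finset (E →ₐ[ℂ] Ω)), A.card ≤ r →
    ∀ c : (E →ₐ[ℂ] Ω) → Ω,
    (∀ ω : (Fin m → Derivation ℂ E E) → E, LogSec ℂ E m 1 BX ω →
      ∑ σ ∈ A, c σ * σ (ω D) = 0) → ∀ σ ∈ A, c σ = 0

variable {K : Type} [Field K] [Algebra ℂ K] {k : ℕ}

/-- The function field of the image `W_i` of `V` in the product of `W` and the first `i` factors.
Here `K` and `L` are the function fields of `V` and `W`, and `F l` is the one of the `l`-th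
factor. -/
noncomputable def Img (F : Fin (k + 1) → IntermediateField ℂ K) (L : Type) [Field L] [Algebra L K]
    (i : ℕ) : IntermediateField L K :=
  IntermediateField.adjoin L {z | ∃ l : Fin (k + 1), l.val < i ∧ z ∈ F l}

/-- The degree over `W_i` of the image of `V` in the product of `W_i` and the `i`-th factor. -/
noncomputable def deg (F : Fin (k + 1) → IntermediateField ℂ K) (L : Type) [Field L] [Algebra L K]
    (i : Fin (k + 1)) : ℕ :=
  finrank (Img F L i) (IntermediateField.adjoin (Img F L i) (F i : Set K))

theorem deg_eq (F : Fin (k + 1) → IntermediateField ℂ K) (L : Type) [Field L] [Algebra ℂ L]
    [Algebra L K] [IsScalarTower ℂ L K] [FiniteDimensional L K] (i : Fin (k + 1)) :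
    deg F L i = finrank (N145.PC.MF F L (N145.PC.Js (k + 1) i))
      (IntermediateField.adjoin (N145.PC.MF F L (N145.PC.Js (k + 1) i)) (F i : Set K)) := by
  unfold deg Img
  rw [N145.SX.mf_eq]

/-- The place `Q` of the function field `K` of the product lies over a place of `F i`, `i < k`,
without centre on `X° i`, or over a point in `B`: it has no centre on the product of the `X° i` and
`U`. -/
def Boundary {F : Fin (k + 1) → IntermediateField ℂ K}
    (BX : ∀ i : Fin k, Place ℂ (F i.castSucc) → Prop) (B : Set (Place ℂ (F (Fin.last k))))
    (Q : Place ℂ K) : Prop :=
  (∃ (i : Fin k) (P : Place ℂ (F i.castSucc)) (e : ℕ), BX i P ∧ 0 < e ∧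
    ∀ f : F i.castSucc, Q.ord (f : K) = e * P.ord f) ∨
  ∃ p ∈ B, ∃ e : ℕ, 0 < e ∧ ∀ f : F (Fin.last k), Q.ord (f : K) = e * p.ord f

/-- The set `BW` of places of the function field `L` of `W` is the boundary of the image of the
product: for all places `Q` of `K` over a place `P` of `L`, `P` is in `BW` if and only if `Q` has no
centre on the product of the `X° i` and `U`. -/
def IsImageBoundary {F : Fin (k + 1) → IntermediateField ℂ K}
    (BX : ∀ i : Fin k, Place ℂ (F i.castSucc) → Prop) (B : Set (Place ℂ (F (Fin.last k))))
    (L : Type) [Field L] [Algebra ℂ L] [Algebra L K] (BW : Place ℂ L → Prop) : Prop :=
  ∀ (P : Place ℂ L) (Q : Place ℂ K) (e : ℕ), 0 < e →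
    (∀ f : L, Q.ord (algebraMap L K f) = e * P.ord f) → (BW P ↔ Boundary BX B Q)

/-- **Nonvanishing for log pairs dominated by the product of several open varieties and an open
curve.** Let `K` be the function field of the product `V` of the varieties `X i` with the function
fields `F i`, `i < k`, of dimension `m i`, and of the curve with the function field `F k`, i.e. `K` is
the compositum and its transcendence degree is `∑ m i + 1`. Let `X° i` be open varieties with the
boundaries `BX i` (the places of `F i` without centre on `X° i`), and let `B` be a finite set of points
of the curve. Let `L ⊆ K` be the function field of a variety `W` such that the extension is finite,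
and let `W°` be an open variety with function field `L` and boundary `BW` which is the image of the
product of the `X° i` and the open curve under a proper map. Suppose that for all `i < k` the
logarithmic canonical forms of `X° i` separate `2 d i` general points, where `d i` is the degree over
`W_i` of the image of `V` in the product of `W_i` and `X i`. Then the following are equivalent: the
log canonical divisor of `W°` is pseudo-effective; `κ(W°) ≥ ∑ m i = dim W° - 1` for the logarithmic
Kodaira dimension; `W°` is not `A¹`-uniruled. -/
theorem result [Algebra.EssFiniteType ℂ K] (m : Fin k → ℕ)
    (F : Fin (k + 1) → IntermediateField ℂ K) [∀ i, Algebra.EssFiniteType ℂ (F i)]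
    [IsFF ℂ (F (Fin.last k))] (hF : ⨆ i, F i = ⊤)
    (hm : ∀ i : Fin k, Algebra.trdeg ℂ (F i.castSucc) = m i)
    (hK : Algebra.trdeg ℂ K = (∑ i, m i + 1 : ℕ))
    (BX : ∀ i : Fin k, Place ℂ (F i.castSucc) → Prop) (B : Set (Place ℂ (F (Fin.last k))))
    (hB : B.Finite) (L : Type) [Field L] [Algebra ℂ L]
    [Algebra L K] [IsScalarTower ℂ L K] [FiniteDimensional L K]
    (BW : Place ℂ L → Prop) (hBW : IsImageBoundary BX B L BW)
    (hX : ∀ i : Fin k, SeparatesPoints (F i.castSucc) (m i) (BX i) (2 * deg F L i.castSucc)) :
    [Psef ℂ L (∑ i, m i + 1) BW, KodGe ℂ L (∑ i, m i + 1) BW (∑ i, m i),
      ¬ IsA1Uniruled ℂ L (∑ i, m i + 1) BW].TFAE := by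
  choose x D hx hD using fun i : Fin k => Pool.Agent.Y172.exists_crd (hm i)
  refine N145.SX.multi_log (L := L) hF hm hK hx hB (BX := BX) (BL := BW) (fun P Q e h => ?_)
    (g := fun i => 2 * deg F L i.castSucc + 1)
    (fun i => N145.SX.sepX_of (hx i) (hD i) fun Ω _ _ _ A hA c hc =>
      hX i (D i) (N145.SX.dual_indep (hD i)) Ω A hA c hc)
    (fun i => by
      rw [deg_eq]
      exact Nat.lt_succ_self _)
  rw [hBW P Q e h.1 h.2]
  rfl

end Pool.Agent.Results.MP_bc213e_ag.OpenProductsOfVarieties
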